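import Pool.Agent.helper82.UN.SpecP

/-! Row PBD of project UN (MP_cf4097_nt), block H, part P. -/

set_option autoImplicit false

open NumberField Complex MeasureTheory nonZeroDivisors

namespace Pool.Agent.UN

/-- polynomial times Gaussian is at most a constant times `exp (-x)` -/
theorem PBD : PBD_stmt := by
  intro a c hc
  refine ⟨(a.factorial : ℝ) * Real.exp (1 / c), by positivity, ?_⟩
  intro x hx
  have hf : (0 : ℝ) < (a.factorial : ℝ) := by exact_mod_cast a.factorial_pos
  have h1 : x ^ a ≤ (a.factorial : ℝ) * Real.exp x := by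
    have h := Real.pow_div_factorial_le_exp x hx a
    rw [div_le_iff₀ hf] at h
    linarith [mul_comm (Real.exp x) (a.factorial : ℝ)]
  have h2 : -(c * x ^ 2) ≤ 1 / c - 2 * x := by
    have h3 : 0 ≤ c * (x - 1 / c) ^ 2 := by positivity
    have h4 : c * (x - 1 / c) ^ 2 = c * x ^ 2 - 2 * x + 1 / c := by
      field_simp
      ring
    linarith
  have h5 : Real.exp (-(c * x ^ 2)) ≤ Real.exp (1 / c - 2 * x) := Real.exp_le_exp.mpr h2
  have h6 : Real.exp x * Real.exp (1 / c - 2 * x) = Real.exp (1 / c) * Real.exp (-x) := by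
    rw [← Real.exp_add, ← Real.exp_add]
    congr 1
    ring
  calc x ^ a * Real.exp (-(c * x ^ 2))
      ≤ ((a.factorial : ℝ) * Real.exp x) * Real.exp (1 / c - 2 * x) :=
        mul_le_mul h1 h5 (Real.exp_pos _).le (by positivity)
    _ = (a.factorial : ℝ) * Real.exp (1 / c) * Real.exp (-x) := by
        rw [mul_assoc, h6, ← mul_assoc]

end Pool.Agent.UN
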