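import Pool.Agent.helper82.UN.SpecP

/-! Row PMX of project UN (MP_cf4097_nt), block H, part P. -/

set_option autoImplicit false

open NumberField Complex MeasureTheory nonZeroDivisors

namespace Pool.Agent.UN

theorem PMX_cw_real {K : Type} [Field K] [NumberField K] (x : mixedEmbedding.mixedSpace K)
    (w : {w : InfinitePlace K // w.IsReal}) : cw x w.1 = ((x.1 w : ℝ) : ℂ) := by
  unfold cw
  rw [dif_pos w.2]

theorem PMX_cw_complex {K : Type} [Field K] [NumberField K] (x : mixedEmbedding.mixedSpace K)
    (w : {w : InfinitePlace K // w.IsComplex}) : cw x w.1 = x.2 w := by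
  unfold cw
  rw [dif_neg (InfinitePlace.not_isReal_iff_isComplex.2 w.2)]

open scoped Classical in
/-- integral of a product over the mixed space -/
theorem PMX : PMX_stmt := by
  intro K _ _ g
  have h1 : ∀ x : mixedEmbedding.mixedSpace K, ∏ w : InfinitePlace K, g w (cw x w) =
      (∏ w : {w : InfinitePlace K // w.IsReal}, g w.1 ((x.1 w : ℝ) : ℂ)) *
        ∏ w : {w : InfinitePlace K // w.IsComplex}, g w.1 (x.2 w) := by
    intro x
    rw [InfinitePlace.prod_eq_prod_mul_prod]
    congr 1
    · exact Finset.prod_congr rfl (fun w _ => by rw [PMX_cw_real])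
    · exact Finset.prod_congr rfl (fun w _ => by rw [PMX_cw_complex])
  simp_rw [h1]
  have h2 := integral_prod_mul (μ := (volume : Measure ({w : InfinitePlace K // w.IsReal} → ℝ)))
    (ν := (volume : Measure ({w : InfinitePlace K // w.IsComplex} → ℂ)))
    (fun a => ∏ w : {w : InfinitePlace K // w.IsReal}, g w.1 ((a w : ℝ) : ℂ))
    (fun b => ∏ w : {w : InfinitePlace K // w.IsComplex}, g w.1 (b w))
  rw [← Measure.volume_eq_prod] at h2
  rw [h2]
  congr 1
  · exact integral_fintype_prod_volume_eq_prod
      (fun (w : {w : InfinitePlace K // w.IsReal}) (s : ℝ) => g w.1 (s : ℂ))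
  · exact integral_fintype_prod_volume_eq_prod
      (fun (w : {w : InfinitePlace K // w.IsComplex}) (z : ℂ) => g w.1 z)

end Pool.Agent.UN
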